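import Mathlib

/-!
# Powers of ideals generated by forms of degree `d`, in degree `d * k + 1`
-/

open MvPolynomial

namespace Pool.Agent.R363.PG

variable {K : Type*} [CommRing K] {σ τ : Type*}

/-- The products of `k` of the forms times one variable. -/
noncomputable def gen (k : ℕ) (f : τ → MvPolynomial σ K) (q : (Fin k → τ) × σ) : MvPolynomial σ K :=
  (∏ r, f (q.1 r)) * X q.2

theorem span_pow_eq (f : τ → MvPolynomial σ K) (k : ℕ) :
    Ideal.span (Set.range f) ^ k =
      Ideal.span (Set.range (fun s : Fin k → τ => ∏ r, f (s r))) := by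
  induction k with
  | zero =>
    rw [pow_zero]
    symm
    rw [Ideal.one_eq_top, Ideal.eq_top_iff_one]
    apply Ideal.subset_span
    exact ⟨fun i => i.elim0, by simp⟩
  | succ k ih =>
    rw [pow_succ', ih, Ideal.span_mul_span]
    congr 1
    ext x
    constructor
    · rintro ⟨a, ⟨j, rfl⟩, b, ⟨s, rfl⟩, rfl⟩
      refine ⟨Fin.cons j s, ?_⟩
      simp [Fin.prod_univ_succ]
    · rintro ⟨s, rfl⟩
      refine ⟨f (s 0), ⟨s 0, rfl⟩, ∏ r, f (Fin.tail s r), ⟨Fin.tail s, rfl⟩, ?_⟩
      simp [Fin.prod_univ_succ, Fin.tail]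

theorem hc_mul {n : ℕ} (c P : MvPolynomial σ K) (hP : P.IsHomogeneous n) :
    homogeneousComponent (n + 1) (c * P) = homogeneousComponent 1 c * P := by
  have hsum : c * P = ∑ i ∈ Finset.range (c.totalDegree + 1 + 1), homogeneousComponent i c * P := by
    rw [← Finset.sum_mul]
    congr 1
    rw [Finset.sum_range_succ, sum_homogeneousComponent,
      homogeneousComponent_eq_zero (n := c.totalDegree + 1) c (Nat.lt_succ_self _), add_zero]
  have hterm : ∀ i, homogeneousComponent (n + 1) (homogeneousComponent i c * P) =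
      if i = 1 then homogeneousComponent 1 c * P else 0 := by
    intro i
    have hh : (homogeneousComponent i c * P).IsHomogeneous (i + n) :=
      (homogeneousComponent_isHomogeneous i c).mul hP
    rw [homogeneousComponent_of_mem ((mem_homogeneousSubmodule _ _).2 hh)]
    by_cases hi : i = 1
    · subst hi
      rw [if_pos (by omega), if_pos rfl]
    · rw [if_neg (by omega), if_neg hi]
  calc homogeneousComponent (n + 1) (c * P)
      = ∑ i ∈ Finset.range (c.totalDegree + 1 + 1),
          homogeneousComponent (n + 1) (homogeneousComponent i c * P) := by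
        conv_lhs => rw [hsum]
        rw [map_sum]
    _ = ∑ i ∈ Finset.range (c.totalDegree + 1 + 1),
          (if i = 1 then homogeneousComponent 1 c * P else 0) := by
        exact Finset.sum_congr rfl (fun i _ => hterm i)
    _ = homogeneousComponent 1 c * P := by
        rw [Finset.sum_ite_eq' , if_pos]
        simp

theorem prod_homog {d k : ℕ} (f : τ → MvPolynomial σ K) (hf : ∀ j, (f j).IsHomogeneous d)
    (s : Fin k → τ) : (∏ r, f (s r)).IsHomogeneous (d * k) := by
  have := IsHomogeneous.prod (Finset.univ : Finset (Fin k)) (fun r => f (s r)) (fun _ => d)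
    (fun r _ => hf (s r))
  simpa [mul_comm] using this

theorem mem_span_gen [Fintype σ] [Fintype τ] {d k : ℕ} (f : τ → MvPolynomial σ K)
    (hf : ∀ j, (f j).IsHomogeneous d)
    (p : MvPolynomial σ K) (hp : p.IsHomogeneous (d * k + 1))
    (hpI : p ∈ Ideal.span (Set.range f) ^ k) :
    p ∈ Submodule.span K (Set.range (gen k f)) := by
  classical
  rw [span_pow_eq, Ideal.mem_span_range_iff_exists_fun] at hpI
  obtain ⟨c, hc⟩ := hpI
  have h1 : p = ∑ s : Fin k → τ, homogeneousComponent 1 (c s) * ∏ r, f (s r) := by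
    calc p = homogeneousComponent (d * k + 1) p := (homogeneousComponent_eq_self hp).symm
      _ = homogeneousComponent (d * k + 1) (∑ s : Fin k → τ, c s * ∏ r, f (s r)) := by rw [hc]
      _ = _ := by
        rw [map_sum]
        exact Finset.sum_congr rfl (fun s _ => hc_mul _ _ (prod_homog f hf s))
  rw [h1]
  refine Submodule.sum_mem _ (fun s _ => ?_)
  have h2 : homogeneousComponent 1 (c s) ∈ Submodule.span K (Set.range (X : σ → MvPolynomial σ K)) := by
    rw [← homogeneousSubmodule_one_eq_span_X]
    exact homogeneousComponent_mem 1 (c s)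
  rw [Submodule.mem_span_range_iff_exists_fun] at h2
  obtain ⟨a, ha⟩ := h2
  rw [← ha, Finset.sum_mul]
  refine Submodule.sum_mem _ (fun i _ => ?_)
  rw [smul_mul_assoc]
  refine Submodule.smul_mem _ _ (Submodule.subset_span ⟨(s, i), ?_⟩)
  simp only [gen]
  ring

theorem gen_mem (k : ℕ) (f : τ → MvPolynomial σ K) (q : (Fin k → τ) × σ) :
    gen k f q ∈ Ideal.span (Set.range f) ^ k := by
  rw [span_pow_eq, gen]
  exact Ideal.mul_mem_right _ _ (Ideal.subset_span ⟨q.1, rfl⟩)

theorem gen_homog {d k : ℕ} (f : τ → MvPolynomial σ K) (hf : ∀ j, (f j).IsHomogeneous d)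
    (q : (Fin k → τ) × σ) : (gen k f q).IsHomogeneous (d * k + 1) :=
  (prod_homog f hf q.1).mul (isHomogeneous_X K q.2)

/-- All forms of degree `d * k + 1` lie in the `k`-th power of the ideal. -/
def Good (d k : ℕ) (f : τ → MvPolynomial σ K) : Prop :=
  ∀ p : MvPolynomial σ K, p.IsHomogeneous (d * k + 1) → p ∈ Ideal.span (Set.range f) ^ k

theorem good_iff [Fintype σ] [Fintype τ] {d k : ℕ} (f : τ → MvPolynomial σ K)
    (hf : ∀ j, (f j).IsHomogeneous d) :
    Good d k f ↔ ∀ p : MvPolynomial σ K, p.IsHomogeneous (d * k + 1) →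
      p ∈ Submodule.span K (Set.range (gen k f)) := by
  constructor
  · intro h p hp
    exact mem_span_gen f hf p hp (h p hp)
  · intro h p hp
    have h1 := h p hp
    have h2 : Submodule.span K (Set.range (gen k f)) ≤
        (Submodule.restrictScalars K (Ideal.span (Set.range f) ^ k)) := by
      rw [Submodule.span_le]
      rintro _ ⟨q, rfl⟩
      exact gen_mem k f q
    exact h2 h1

end Pool.Agent.R363.PG
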