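import Mathlib
import Pool.Agent.R363.PG.Span

/-!
# Tuples of quadratic forms which are singular enough at one point are bad
-/

open MvPolynomial

namespace Pool.Agent.R363.PG

/-- The 73 variables: one variable `x0`, 64 variables `ww q`, 8 variables `vv c`. -/
abbrev Vr := Unit ⊕ (Fin 8 × Fin 8) ⊕ Fin 8

/-- The index set of the 74 forms. -/
abbrev Fm := Unit ⊕ (Fin 8 × Fin 8) ⊕ Option (Fin 8)

/-- The variable `x0`. -/
abbrev x0 : Vr := Sum.inl ()
/-- The variables `ww q`. -/
abbrev ww (q : Fin 8 × Fin 8) : Vr := Sum.inr (Sum.inl q)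
/-- The variables `vv c`. -/
abbrev vv (c : Fin 8) : Vr := Sum.inr (Sum.inr c)

/-- The weights: `x0` has weight 0, `vv c` has weight 1, `ww q` has weight 2. -/
def wt : Vr → ℕ := Sum.elim (fun _ => 0) (Sum.elim (fun _ => 2) (fun _ => 1))

theorem wt_x0 : wt x0 = 0 := rfl
theorem wt_ww (q) : wt (ww q) = 2 := rfl
theorem wt_vv (c) : wt (vv c) = 1 := rfl

/-- Every monomial of `p` has weight at least `r`. -/
def Wge (r : ℕ) (p : MvPolynomial Vr ℂ) : Prop :=
  ∀ e, coeff e p ≠ 0 → r ≤ Finsupp.weight wt e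

theorem Wge.zero (r : ℕ) : Wge r 0 := by
  intro e he
  simp at he

theorem Wge.add {r : ℕ} {p q : MvPolynomial Vr ℂ} (hp : Wge r p) (hq : Wge r q) :
    Wge r (p + q) := by
  intro e he
  rw [coeff_add] at he
  by_cases h : coeff e p = 0
  · rw [h, zero_add] at he
    exact hq e he
  · exact hp e h

theorem Wge.mul {r s : ℕ} {p q : MvPolynomial Vr ℂ} (hp : Wge r p) (hq : Wge s q) :
    Wge (r + s) (p * q) := by
  classical
  intro e he
  rw [coeff_mul] at he
  obtain ⟨x, hx, hx0⟩ := Finset.exists_ne_zero_of_sum_ne_zero he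
  rw [Finset.HasAntidiagonal.mem_antidiagonal] at hx
  rw [← hx, map_add]
  exact Nat.add_le_add (hp _ (left_ne_zero_of_mul hx0)) (hq _ (right_ne_zero_of_mul hx0))

theorem Wge.any (p : MvPolynomial Vr ℂ) : Wge 0 p := fun _ _ => Nat.zero_le _

theorem Wge.mono {r s : ℕ} (h : r ≤ s) {p : MvPolynomial Vr ℂ} (hp : Wge s p) : Wge r p :=
  fun e he => h.trans (hp e he)

theorem Wge.mul_left {r : ℕ} {p : MvPolynomial Vr ℂ} (q : MvPolynomial Vr ℂ) (hp : Wge r p) :
    Wge r (q * p) := by
  simpa using (Wge.any q).mul hp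

theorem Wge.mul_right {r : ℕ} {p : MvPolynomial Vr ℂ} (q : MvPolynomial Vr ℂ) (hp : Wge r p) :
    Wge r (p * q) := by
  simpa using hp.mul (Wge.any q)

theorem Wge.var (i : Vr) : Wge (wt i) (X i) := by
  classical
  intro e he
  rw [coeff_X] at he
  have : Finsupp.single i 1 = e := by
    by_contra h
    simp [h] at he
  rw [← this, Finsupp.weight_single]
  simp

theorem Wge.sum {ι : Type*} {r : ℕ} (s : Finset ι) (f : ι → MvPolynomial Vr ℂ)
    (h : ∀ i ∈ s, Wge r (f i)) : Wge r (∑ i ∈ s, f i) := by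
  classical
  induction s using Finset.induction_on with
  | empty => simpa using Wge.zero r
  | insert a s ha ih =>
    rw [Finset.sum_insert ha]
    exact (h a (Finset.mem_insert_self a s)).add
      (ih (fun i hi => h i (Finset.mem_insert_of_mem hi)))

/-- The polynomials of weight at least 4. -/
def W4 : Submodule ℂ (MvPolynomial Vr ℂ) where
  carrier := {p | Wge 4 p}
  add_mem' := fun hp hq => hp.add hq
  zero_mem' := Wge.zero 4
  smul_mem' := by
    intro c p hp
    show Wge 4 (c • p)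
    rw [smul_eq_C_mul]
    exact Wge.mul_left _ hp

theorem prod_form (h u : Fm → MvPolynomial Vr ℂ) (α : Fm → ℂ) (hu : ∀ j, Wge 2 (u j))
    (hh : ∀ j, h j = C (α j) * X x0 ^ 2 + u j) (k : ℕ) (s : Fin (k + 1) → Fm) :
    ∃ (c : ℂ) (a : Fm → ℂ) (ω : MvPolynomial Vr ℂ), Wge 4 ω ∧
      ∏ r, h (s r) = C c * X x0 ^ (2 * (k + 1)) + (∑ j, C (a j) * (X x0 ^ (2 * k) * u j)) + ω := by
  classical
  induction k with
  | zero =>
    refine ⟨α (s 0), Pi.single (s 0) 1, 0, Wge.zero 4, ?_⟩
    have : ∑ j, C (Pi.single (M := fun _ => ℂ) (s 0) 1 j) * (X x0 ^ (2 * 0) * u j) = u (s 0) := by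
      rw [Finset.sum_eq_single (s 0)]
      · simp
      · intro b _ hb
        simp [Pi.single_eq_of_ne hb]
      · simp
    rw [this]
    simp [hh]
  | succ k ih =>
    obtain ⟨c, a, ω, hω, hprod⟩ := ih (fun r => s r.succ)
    refine ⟨α (s 0) * c, fun j => α (s 0) * a j + (Pi.single (M := fun _ => ℂ) (s 0) c) j,
      u (s 0) * (∑ j, C (a j) * (X x0 ^ (2 * k) * u j)) + h (s 0) * ω, ?_, ?_⟩
    · refine Wge.add ?_ (hω.mul_left _)
      exact (hu (s 0)).mul (Wge.sum _ _ (fun j _ => ((hu j).mul_left _).mul_left _))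
    · rw [Fin.prod_univ_succ, hprod]
      have h1 : ∑ j, C (α (s 0) * a j + (Pi.single (M := fun _ => ℂ) (s 0) c) j) *
          (X x0 ^ (2 * (k + 1)) * u j) =
          C (α (s 0)) * X x0 ^ 2 * (∑ j, C (a j) * (X x0 ^ (2 * k) * u j)) +
            C c * X x0 ^ (2 * (k + 1)) * u (s 0) := by
        have h2 : ∀ j, C (α (s 0) * a j + (Pi.single (M := fun _ => ℂ) (s 0) c) j) *
          (X x0 ^ (2 * (k + 1)) * u j) =
            C (α (s 0)) * X x0 ^ 2 * (C (a j) * (X x0 ^ (2 * k) * u j)) +
              C ((Pi.single (M := fun _ => ℂ) (s 0) c) j) * (X x0 ^ (2 * (k + 1)) * u j) := by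
          intro j
          rw [C_add, C_mul]
          ring
        rw [Finset.sum_congr rfl (fun j _ => h2 j), Finset.sum_add_distrib, ← Finset.mul_sum]
        congr 1
        rw [Finset.sum_eq_single (s 0)]
        · simp
          ring
        · intro b _ hb
          simp [Pi.single_eq_of_ne hb]
        · simp
      rw [h1, hh (s 0), C_mul]
      ring

/-- The family of 739 polynomials spanning the products up to weight 4. -/
noncomputable def Bf (k : ℕ) (u : Fm → MvPolynomial Vr ℂ) :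
    Vr ⊕ (Fm × Option (Fin 8)) → MvPolynomial Vr ℂ
  | Sum.inl i => X x0 ^ (2 * (k + 1)) * X i
  | Sum.inr (j, none) => X x0 ^ (2 * k) * u j * X x0
  | Sum.inr (j, some c) => X x0 ^ (2 * k) * u j * X (vv c)

theorem gen_mem_Bf (h u : Fm → MvPolynomial Vr ℂ) (α : Fm → ℂ) (hu : ∀ j, Wge 2 (u j))
    (hh : ∀ j, h j = C (α j) * X x0 ^ 2 + u j) (k : ℕ) (q : (Fin (k + 1) → Fm) × Vr) :
    gen (k + 1) h q ∈ Submodule.span ℂ (Set.range (Bf k u)) ⊔ W4 := by
  obtain ⟨c, a, ω, hω, hprod⟩ := prod_form h u α hu hh k q.1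
  have key : gen (k + 1) h q =
      c • (X x0 ^ (2 * (k + 1)) * X q.2) + (∑ j, a j • (X x0 ^ (2 * k) * u j * X q.2)) +
        ω * X q.2 := by
    have e1 : (C c * X x0 ^ (2 * (k + 1)) * X q.2 : MvPolynomial Vr ℂ) =
        c • (X x0 ^ (2 * (k + 1)) * X q.2) := by
      rw [smul_eq_C_mul, mul_assoc]
    have e2 : ∀ j, (C (a j) * (X x0 ^ (2 * k) * u j) * X q.2 : MvPolynomial Vr ℂ) =
        a j • (X x0 ^ (2 * k) * u j * X q.2) := by
      intro j
      rw [smul_eq_C_mul, mul_assoc]
    rw [gen, hprod, add_mul, add_mul, Finset.sum_mul, e1,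
      Finset.sum_congr rfl (fun j _ => e2 j)]
  rw [key]
  refine Submodule.add_mem _ (Submodule.add_mem _ ?_ (Submodule.sum_mem _ (fun j _ => ?_))) ?_
  · exact Submodule.mem_sup_left
      (Submodule.smul_mem _ _ (Submodule.subset_span ⟨Sum.inl q.2, rfl⟩))
  · refine Submodule.smul_mem _ _ ?_
    rcases hq : q.2 with ⟨⟩ | q' | c'
    · exact Submodule.mem_sup_left (Submodule.subset_span ⟨Sum.inr (j, none), rfl⟩)
    · refine Submodule.mem_sup_right ?_
      show Wge 4 _
      exact ((hu j).mul_left _).mul (Wge.var (ww q'))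
    · exact Submodule.mem_sup_left (Submodule.subset_span ⟨Sum.inr (j, some c'), rfl⟩)
  · exact Submodule.mem_sup_right (hω.mul_right _)

/-- The index set of the 741 monomials of degree 3 and weight at most 3. -/
abbrev Ix := Sym (Option (Fin 8)) 3 ⊕ ((Fin 8 × Fin 8) × Option (Fin 8))

/-- The variables of weight at most 1. -/
def emb : Option (Fin 8) → Vr
  | none => x0
  | some c => vv c

theorem emb_inj : Function.Injective emb := by
  rintro (_ | a) (_ | b) h <;> simp_all [emb]

theorem wt_emb (o : Option (Fin 8)) : wt (emb o) ≤ 1 := by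
  rcases o with _ | c
  · simp [emb, wt]
  · simp [emb, wt]

theorem emb_ne_ww (o : Option (Fin 8)) (q) : emb o ≠ ww q := by
  rcases o with _ | c <;> simp [emb]

/-- The monomials as multisets. -/
def nuM : Ix → Multiset Vr
  | Sum.inl s => (s : Multiset (Option (Fin 8))).map emb
  | Sum.inr (q, o) => {ww q, emb o, x0}

theorem nuM_inj : Function.Injective nuM := by
  rintro (s | ⟨q, o⟩) (s' | ⟨q', o'⟩) h
  · congr 1
    exact Sym.coe_injective (Multiset.map_injective emb_inj h)
  · exfalso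
    have : ww q' ∈ nuM (Sum.inl s) := by
      rw [h]
      simp [nuM]
    simp only [nuM, Multiset.mem_map] at this
    obtain ⟨a, _, ha⟩ := this
    exact emb_ne_ww _ _ ha
  · exfalso
    have : ww q ∈ nuM (Sum.inl s') := by
      rw [← h]
      simp [nuM]
    simp only [nuM, Multiset.mem_map] at this
    obtain ⟨a, _, ha⟩ := this
    exact emb_ne_ww _ _ ha
  · have hq : q = q' := by
      have : ww q ∈ nuM (Sum.inr (q', o')) := by
        rw [← h]
        simp [nuM]
      simp only [nuM, Multiset.insert_eq_cons, Multiset.mem_cons, Multiset.mem_singleton] at this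
      rcases this with h1 | h1 | h1
      · simpa using h1
      · exact absurd h1.symm (emb_ne_ww _ _)
      · simp at h1
    subst hq
    simp only [nuM, Multiset.insert_eq_cons] at h
    have h2 := (Multiset.cons_inj_right _).1 h
    have h3 := (Multiset.cons_inj_left _).1 h2
    rw [emb_inj h3]

theorem weight_toFinsupp (m : Multiset Vr) :
    Finsupp.weight wt (Multiset.toFinsupp m) = (m.map wt).sum := by
  induction m using Multiset.induction_on with
  | empty => simp
  | cons a s ih =>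
    rw [← Multiset.singleton_add, map_add, map_add, ih, Multiset.toFinsupp_singleton,
      Finsupp.weight_single]
    simp

theorem degree_toFinsupp (m : Multiset Vr) :
    (Multiset.toFinsupp m).degree = Multiset.card m := by
  induction m using Multiset.induction_on with
  | empty => simp
  | cons a s ih =>
    rw [← Multiset.singleton_add, map_add, map_add, ih, Multiset.toFinsupp_singleton]
    simp [add_comm]

/-- The exponents used in degree `2 * k + 3`. -/
noncomputable def nu (k : ℕ) (μ : Ix) : Vr →₀ ℕ :=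
  Multiset.toFinsupp (nuM μ) + Finsupp.single x0 (2 * k)

theorem nu_inj (k : ℕ) : Function.Injective (nu k) := by
  intro a b h
  unfold nu at h
  exact nuM_inj (Multiset.toFinsupp.injective (add_right_cancel h))

theorem nu_weight (k : ℕ) (μ : Ix) : Finsupp.weight wt (nu k μ) ≤ 3 := by
  rw [nu, map_add, weight_toFinsupp, Finsupp.weight_single, wt_x0]
  simp only [smul_zero, add_zero]
  rcases μ with s | ⟨q, o⟩
  · have h1 : ∀ x ∈ (nuM (Sum.inl s)).map wt, x ≤ 1 := by
      intro x hx
      simp only [nuM, Multiset.map_map, Multiset.mem_map, Function.comp] at hx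
      obtain ⟨a, _, rfl⟩ := hx
      exact wt_emb a
    have := Multiset.sum_le_card_nsmul _ 1 h1
    simpa [nuM] using this
  · have := wt_emb o
    simp only [nuM, Multiset.insert_eq_cons, Multiset.map_cons, Multiset.map_singleton,
      Multiset.sum_cons, Multiset.sum_singleton, wt_ww, wt_x0]
    omega

theorem nu_degree (k : ℕ) (μ : Ix) : (nu k μ).degree = 2 * (k + 1) + 1 := by
  rw [nu, map_add, degree_toFinsupp, Finsupp.degree_single]
  rcases μ with s | ⟨q, o⟩
  · simp [nuM]
    ring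
  · simp [nuM]
    ring

/-- The coefficients at the chosen monomials. -/
noncomputable def Tm (k : ℕ) : MvPolynomial Vr ℂ →ₗ[ℂ] (Ix → ℂ) :=
  LinearMap.pi (fun μ => lcoeff ℂ (nu k μ))

theorem Tm_apply (k : ℕ) (p : MvPolynomial Vr ℂ) (μ : Ix) : Tm k p μ = coeff (nu k μ) p := rfl

theorem Tm_W4 (k : ℕ) (p : MvPolynomial Vr ℂ) (hp : Wge 4 p) : Tm k p = 0 := by
  funext μ
  rw [Tm_apply]
  by_contra h
  have h1 := hp _ h
  have h2 := nu_weight k μ
  omega

theorem Tm_mono (k : ℕ) (μ : Ix) : Tm k (monomial (nu k μ) 1) = Pi.single μ 1 := by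
  classical
  funext μ'
  rw [Tm_apply, coeff_monomial]
  by_cases h : μ' = μ
  · subst h
    simp
  · rw [if_neg (fun h' => h (nu_inj k h').symm), Pi.single_eq_of_ne h]

theorem card_Ix : Fintype.card Ix = 741 := by
  rw [Fintype.card_sum, Sym.card_sym_eq_choose]
  simp [Nat.choose]

theorem card_Bf : Fintype.card (Vr ⊕ (Fm × Option (Fin 8))) = 739 := by
  simp

theorem bad_of_form (h u : Fm → MvPolynomial Vr ℂ) (α : Fm → ℂ) (hu : ∀ j, Wge 2 (u j))
    (hh : ∀ j, h j = C (α j) * X x0 ^ 2 + u j) (hhom : ∀ j, (h j).IsHomogeneous 2) (k : ℕ) :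
    ¬ Good 2 (k + 1) h := by
  classical
  intro hg
  rw [good_iff h hhom] at hg
  have h1 : Submodule.span ℂ (Set.range (gen (k + 1) h)) ≤
      Submodule.span ℂ (Set.range (Bf k u)) ⊔ W4 := by
    rw [Submodule.span_le]
    rintro _ ⟨q, rfl⟩
    exact gen_mem_Bf h u α hu hh k q
  have h2 : (⊤ : Submodule ℂ (Ix → ℂ)) ≤ Submodule.span ℂ (Set.range (fun b => Tm k (Bf k u b))) := by
    rw [← (Pi.basisFun ℂ Ix).span_eq, Submodule.span_le]
    rintro _ ⟨μ, rfl⟩
    rw [Pi.basisFun_apply, ← Tm_mono k μ]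
    have h3 := h1 (hg (monomial (nu k μ) 1) (isHomogeneous_monomial 1 (nu_degree k μ)))
    rw [Submodule.mem_sup] at h3
    obtain ⟨y, hy, z, hz, hyz⟩ := h3
    rw [← hyz, map_add, Tm_W4 k z hz, add_zero]
    have h4 := Submodule.mem_map_of_mem (f := Tm k) hy
    rw [Submodule.map_span, ← Set.range_comp] at h4
    exact h4
  have h5 := Submodule.finrank_mono h2
  have h6 : Module.finrank ℂ (Submodule.span ℂ (Set.range (fun b => Tm k (Bf k u b)))) ≤ 739 := by
    have := finrank_range_le_card (R := ℂ) (fun b => Tm k (Bf k u b))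
    rw [card_Bf] at this
    exact this
  rw [finrank_top, Module.finrank_fintype_fun_eq_card, card_Ix] at h5
  omega

end Pool.Agent.R363.PG
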