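import Mathlib
import Pool.Agent.R363.PG.Bad

/-!
# Quadratic forms as matrices, linear substitutions
-/

open MvPolynomial

namespace Pool.Agent.R363.PG

/-- The quadratic form with coefficient matrix `A`. -/
noncomputable def quad {σ : Type*} [Fintype σ] {R : Type*} [CommRing R] (A : σ → σ → R) :
    MvPolynomial σ R :=
  ∑ a, ∑ b, C (A a b) * (X a * X b)

theorem quad_homog {σ : Type*} [Fintype σ] {R : Type*} [CommRing R] (A : σ → σ → R) :
    (quad A).IsHomogeneous 2 := by
  unfold quad
  refine IsHomogeneous.sum _ _ _ (fun a _ => IsHomogeneous.sum _ _ _ (fun b _ => ?_))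
  exact ((isHomogeneous_X R a).mul (isHomogeneous_X R b)).C_mul _

/-- The linear substitution with matrix `g`. -/
noncomputable def lin {σ : Type*} [Fintype σ] {R : Type*} [CommRing R] (g : σ → σ → R) :
    MvPolynomial σ R →ₐ[R] MvPolynomial σ R :=
  aeval (fun a => ∑ b, C (g a b) * X b)

theorem lin_X {σ : Type*} [Fintype σ] {R : Type*} [CommRing R] (g : σ → σ → R) (a : σ) :
    lin g (X a) = ∑ b, C (g a b) * X b := by
  simp [lin]

theorem lin_quad {σ : Type*} [Fintype σ] {R : Type*} [CommRing R] (g A : σ → σ → R) :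
    lin g (quad A) = quad (fun c e => ∑ a, ∑ b, g a c * A a b * g b e) := by
  have h1 : lin g (quad A) =
      ∑ a, ∑ b, ∑ c, ∑ e, C (g a c * A a b * g b e) * (X c * X e) := by
    unfold quad
    rw [map_sum]
    refine Finset.sum_congr rfl (fun a _ => ?_)
    rw [map_sum]
    refine Finset.sum_congr rfl (fun b _ => ?_)
    rw [map_mul, map_mul, lin_X, lin_X, Finset.sum_mul_sum, Finset.mul_sum]
    refine Finset.sum_congr rfl (fun c _ => ?_)
    rw [Finset.mul_sum]
    refine Finset.sum_congr rfl (fun e _ => ?_)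
    have : lin g (C (A a b)) = C (A a b) := by
      simp [lin]
    rw [this, C_mul, C_mul]
    ring
  rw [h1]
  unfold quad
  calc ∑ a, ∑ b, ∑ c, ∑ e, C (g a c * A a b * g b e) * (X c * X e)
      = ∑ a, ∑ c, ∑ b, ∑ e, C (g a c * A a b * g b e) * (X c * X e) := by
        exact Finset.sum_congr rfl (fun a _ => Finset.sum_comm)
    _ = ∑ c, ∑ a, ∑ b, ∑ e, C (g a c * A a b * g b e) * (X c * X e) := Finset.sum_comm
    _ = ∑ c, ∑ e, C (∑ a, ∑ b, g a c * A a b * g b e) * (X c * X e) := by
        refine Finset.sum_congr rfl (fun c _ => ?_)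
        calc ∑ a, ∑ b, ∑ e, C (g a c * A a b * g b e) * (X c * X e)
            = ∑ a, ∑ e, ∑ b, C (g a c * A a b * g b e) * (X c * X e) :=
              Finset.sum_congr rfl (fun a _ => Finset.sum_comm)
          _ = ∑ e, ∑ a, ∑ b, C (g a c * A a b * g b e) * (X c * X e) := Finset.sum_comm
          _ = ∑ e, C (∑ a, ∑ b, g a c * A a b * g b e) * (X c * X e) := by
              refine Finset.sum_congr rfl (fun e _ => ?_)
              rw [map_sum, Finset.sum_mul]
              refine Finset.sum_congr rfl (fun a _ => ?_)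
              rw [map_sum, Finset.sum_mul]

theorem lin_lin {σ : Type*} [Fintype σ] {R : Type*} [CommRing R] (g h : σ → σ → R)
    (p : MvPolynomial σ R) :
    lin g (lin h p) = lin (fun a b => ∑ c, h a c * g c b) p := by
  have : (lin g).comp (lin h) = lin (fun a b => ∑ c, h a c * g c b) := by
    apply MvPolynomial.algHom_ext
    intro a
    rw [AlgHom.comp_apply, lin_X, lin_X, map_sum]
    have h1 : ∀ b, lin g (C (h a b) * X b) = ∑ c, C (h a b * g b c) * X c := by
      intro b
      rw [map_mul, lin_X, Finset.mul_sum]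
      refine Finset.sum_congr rfl (fun c _ => ?_)
      have : lin g (C (h a b)) = C (h a b) := by
        simp [lin]
      rw [this, C_mul]
      ring
    rw [Finset.sum_congr rfl (fun b _ => h1 b), Finset.sum_comm]
    refine Finset.sum_congr rfl (fun c _ => ?_)
    rw [map_sum, Finset.sum_mul]
  rw [← this]
  rfl

theorem lin_id {σ : Type*} [Fintype σ] [DecidableEq σ] {R : Type*} [CommRing R]
    (p : MvPolynomial σ R) :
    lin (fun a b : σ => if a = b then (1 : R) else 0) p = p := by
  have : lin (fun a b : σ => if a = b then (1 : R) else 0) = AlgHom.id R _ := by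
    apply MvPolynomial.algHom_ext
    intro a
    rw [lin_X, Finset.sum_eq_single a]
    · simp
    · intro b _ hb
      rw [if_neg (Ne.symm hb)]
      simp
    · simp
  rw [this]
  rfl

theorem lin_homog {σ : Type*} [Fintype σ] {R : Type*} [CommRing R] (g : σ → σ → R) (n : ℕ)
    (p : MvPolynomial σ R) (hp : p.IsHomogeneous n) : (lin g p).IsHomogeneous n := by
  have := hp.aeval (fun a => ∑ b, C (g a b) * X b) (n := 1)
    (fun a => IsHomogeneous.sum _ _ _ (fun b _ => (isHomogeneous_X R b).C_mul _))
  simpa [lin] using this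

theorem good_map {K : Type*} [Field K] {σ σ' τ : Type*} {d k : ℕ}
    (φ : MvPolynomial σ K →ₐ[K] MvPolynomial σ' K)
    (ψ : MvPolynomial σ' K →ₐ[K] MvPolynomial σ K) (hφψ : ∀ p, φ (ψ p) = p)
    (hψ : ∀ n p, p.IsHomogeneous n → (ψ p).IsHomogeneous n) {f : τ → MvPolynomial σ K}
    (hf : Good d k f) : Good d k (fun j => φ (f j)) := by
  intro p hp
  have h1 := hf (ψ p) (hψ _ p hp)
  have h2 := Ideal.mem_map_of_mem φ.toRingHom h1
  rw [Ideal.map_pow, Ideal.map_span, ← Set.range_comp] at h2
  have h3 : φ.toRingHom (ψ p) = p := hφψ p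
  rw [h3] at h2
  exact h2

set_option maxHeartbeats 400000

theorem quad_add {σ : Type*} [Fintype σ] {R : Type*} [CommRing R] (A B : σ → σ → R) :
    quad (fun a b => A a b + B a b) = quad A + quad B := by
  unfold quad
  rw [← Finset.sum_add_distrib]
  refine Finset.sum_congr rfl (fun a _ => ?_)
  rw [← Finset.sum_add_distrib]
  refine Finset.sum_congr rfl (fun b _ => ?_)
  rw [C_add]
  ring

theorem quad_anti {σ : Type*} [Fintype σ] (A : σ → σ → ℂ)
    (hA : ∀ a b, A a b + A b a = 0) : quad A = 0 := by
  have h1 : quad A = quad (fun a b => A b a) := by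
    unfold quad
    rw [Finset.sum_comm]
    refine Finset.sum_congr rfl (fun a _ => Finset.sum_congr rfl (fun b _ => ?_))
    ring
  have h2 : quad A + quad A = 0 := by
    nth_rw 2 [h1]
    rw [← quad_add]
    unfold quad
    refine Finset.sum_eq_zero (fun a _ => Finset.sum_eq_zero (fun b _ => ?_))
    show C (A a b + A b a) * (X a * X b) = 0
    rw [hA]
    simp
  have h3 : (2 : MvPolynomial σ ℂ) * quad A = 0 := by
    rw [two_mul]
    exact h2
  rcases mul_eq_zero.1 h3 with h4 | h4
  · exact absurd h4 two_ne_zero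
  · exact h4

theorem quad_single {σ : Type*} [Fintype σ] [DecidableEq σ] {R : Type*} [CommRing R] (i : σ)
    (r : R) : quad (fun a b : σ => if a = i ∧ b = i then r else 0) = C r * X i ^ 2 := by
  unfold quad
  rw [Finset.sum_eq_single i, Finset.sum_eq_single i]
  · simp [pow_two]
  · intro b _ hb
    simp [hb]
  · simp
  · intro b _ hb
    refine Finset.sum_eq_zero (fun c _ => ?_)
    simp [hb]
  · simp

theorem quad_split (A : Vr → Vr → ℂ) (hA : ∀ c, A x0 (vv c) + A (vv c) x0 = 0) :
    ∃ u : MvPolynomial Vr ℂ, Wge 2 u ∧ quad A = C (A x0 x0) * X x0 ^ 2 + u := by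
  let A3 : Vr → Vr → ℂ := fun a b => if 2 ≤ wt a + wt b then A a b else 0
  let A1 : Vr → Vr → ℂ := fun a b => if a = x0 ∧ b = x0 then A x0 x0 else 0
  let A2 : Vr → Vr → ℂ := fun a b => A a b - A1 a b - A3 a b
  refine ⟨quad A3, ?_, ?_⟩
  · unfold quad
    refine Wge.sum _ _ (fun a _ => Wge.sum _ _ (fun b _ => ?_))
    by_cases h : 2 ≤ wt a + wt b
    · exact (((Wge.var a).mul (Wge.var b)).mono h).mul_left _
    · have : A3 a b = 0 := if_neg h
      rw [this]
      simpa using Wge.zero 2
  · have h2 : quad A2 = 0 := by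
      apply quad_anti
      intro a b
      rcases a with ⟨⟩ | q | c <;> rcases b with ⟨⟩ | q' | c'
      · simp [A2, A1, A3, wt]
      · simp [A2, A1, A3, wt]
      · have := hA c'
        simp only [A2, A1, A3, wt]
        simpa using this
      · simp [A2, A1, A3, wt]
      · simp [A2, A1, A3, wt]
      · simp [A2, A1, A3, wt]
      · have := hA c
        simp only [A2, A1, A3, wt]
        rw [add_comm] at this
        simpa using this
      · simp [A2, A1, A3, wt]
      · simp [A2, A1, A3, wt]
    have h1 : quad A1 = C (A x0 x0) * X x0 ^ 2 := quad_single x0 (A x0 x0)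
    have h3 : A = fun a b => (A1 a b + A3 a b) + A2 a b := by
      funext a b
      simp only [A2]
      ring
    calc quad A = quad (fun a b => (A1 a b + A3 a b) + A2 a b) := by rw [← h3]
      _ = quad (fun a b => A1 a b + A3 a b) + quad A2 := quad_add _ _
      _ = quad A1 + quad A3 + quad A2 := by rw [quad_add A1 A3]
      _ = C (A x0 x0) * X x0 ^ 2 + quad A3 := by rw [h2, h1, add_zero]

theorem bad_quad (A : Fm → Vr → Vr → ℂ) (hA : ∀ j c, A j x0 (vv c) + A j (vv c) x0 = 0) (k : ℕ) :
    ¬ Good 2 (k + 1) (fun j => quad (A j)) := by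
  choose u hu hq using fun j => quad_split (A j) (hA j)
  exact bad_of_form (fun j => quad (A j)) u (fun j => A j x0 x0) hu hq
    (fun j => quad_homog (A j)) k

end Pool.Agent.R363.PG
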