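import Mathlib
import Pool.Agent.R363.PG.Quad

/-!
# All tuples of quadratic forms near a special one are bad
-/

open MvPolynomial Filter Topology

namespace Pool.Agent.R363.PG

set_option maxHeartbeats 400000

/-- Selector of the entries `(vv c, x0)`. -/
def kap : Vr → Vr → ℂ
  | Sum.inr (Sum.inr _), Sum.inl _ => 1
  | _, _ => 0

/-- The projection to the matrices without mixed terms `x0 * vv c`. -/
noncomputable def Lp (H : Vr → Vr → ℂ) (a b : Vr) : ℂ := H a b - kap a b * (H a b + H b a)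

theorem Lp_zero (H : Vr → Vr → ℂ) (c : Fin 8) : Lp H x0 (vv c) + Lp H (vv c) x0 = 0 := by
  simp [Lp, kap]

theorem Lp_fix (H : Vr → Vr → ℂ) (hH : ∀ c, H x0 (vv c) + H (vv c) x0 = 0) : Lp H = H := by
  funext a b
  rcases a with ⟨⟩ | q | c <;> rcases b with ⟨⟩ | q' | c' <;> simp [Lp, kap]
  linear_combination (-1) * hH c

/-- The parametrization. -/
noncomputable def FF (z : (Vr → Vr → ℂ) × (Fm → Vr → Vr → ℂ)) : Fm → Vr → Vr → ℂ :=
  fun j a b => ∑ c, ∑ e, z.1 c a * Lp (z.2 j) c e * z.1 e b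

theorem FF_contDiff : ContDiff ℂ 1 FF := by
  unfold FF Lp
  refine contDiff_pi.2 (fun j => contDiff_pi.2 (fun a => contDiff_pi.2 (fun b => ?_)))
  refine ContDiff.sum (fun c _ => ContDiff.sum (fun e _ => ?_))
  fun_prop

/-- The special tuple of quadratic forms. -/
def A0 : Fm → Vr → Vr → ℂ
  | Sum.inl _, Sum.inl _, Sum.inl _ => 1
  | Sum.inr (Sum.inl q), Sum.inl _, Sum.inr (Sum.inl q') => if q = q' then 1 else 0
  | Sum.inr (Sum.inr (some b)), Sum.inr (Sum.inr c), Sum.inr (Sum.inl q) =>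
      if q = (b, c) then 1 else 0
  | Sum.inr (Sum.inr none), Sum.inr (Sum.inr c), Sum.inr (Sum.inr c') => if c = c' then 1 else 0
  | _, _, _ => 0

theorem A0_zero (j : Fm) (c : Fin 8) : A0 j x0 (vv c) + A0 j (vv c) x0 = 0 := by
  rcases j with ⟨⟩ | q | _ | b <;> simp [A0]

theorem Lp_A0 (j : Fm) : Lp (A0 j) = A0 j := Lp_fix _ (A0_zero j)

/-- The identity matrix. -/
def Id1 : Vr → Vr → ℂ := fun a b => if a = b then 1 else 0

theorem FF_base : FF (Id1, A0) = A0 := by
  funext j a b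
  simp only [FF, Id1, Lp_A0]
  rw [Finset.sum_eq_single a, Finset.sum_eq_single b]
  · simp
  · intro e _ he
    simp [he]
  · simp
  · intro c _ hc
    refine Finset.sum_eq_zero (fun e _ => ?_)
    simp [hc]
  · simp

/-- The solution of the linearized equations. -/
noncomputable def xi (t : Fm → Fin 8 → ℂ) : Vr → Vr → ℂ
  | Sum.inl _, Sum.inr (Sum.inr c) => t (Sum.inl ()) c / 2
  | Sum.inr (Sum.inl q), Sum.inr (Sum.inr c) => t (Sum.inr (Sum.inl q)) c
  | Sum.inr (Sum.inl q), Sum.inl _ => t (Sum.inr (Sum.inr (some q.1))) q.2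
  | Sum.inr (Sum.inr c), Sum.inl _ => t (Sum.inr (Sum.inr none)) c / 2
  | _, _ => 0

/-- The linear part. -/
noncomputable def LL (ξ : Vr → Vr → ℂ) (H : Fm → Vr → Vr → ℂ) : Fm → Vr → Vr → ℂ :=
  fun j a b => (∑ c, ξ c a * A0 j c b) + Lp (H j) a b + ∑ e, A0 j a e * ξ e b

theorem Lp_line (H G : Vr → Vr → ℂ) (t : ℂ) (a b : Vr) :
    Lp (fun a b => H a b + t * G a b) a b = Lp H a b + t * Lp G a b := by
  simp only [Lp]
  ring

theorem FF_line (ξ : Vr → Vr → ℂ) (H : Fm → Vr → Vr → ℂ) :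
    HasDerivAt (fun t : ℂ => FF ((Id1, A0) + t • (ξ, H))) (LL ξ H) 0 := by
  rw [hasDerivAt_pi]
  intro j
  rw [hasDerivAt_pi]
  intro a
  rw [hasDerivAt_pi]
  intro b
  have hterm : ∀ c e : Vr, HasDerivAt (fun t : ℂ => (Id1 c a + t * ξ c a) *
      (Lp (A0 j) c e + t * Lp (H j) c e) * (Id1 e b + t * ξ e b))
      (ξ c a * A0 j c e * Id1 e b + Id1 c a * Lp (H j) c e * Id1 e b +
        Id1 c a * A0 j c e * ξ e b) 0 := by
    intro c e
    have h1 : ∀ x y : ℂ, HasDerivAt (fun t : ℂ => x + t * y) y 0 := by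
      intro x y
      simpa using ((hasDerivAt_id (0 : ℂ)).mul_const y).const_add x
    have h2 := ((h1 (Id1 c a) (ξ c a)).fun_mul (h1 (Lp (A0 j) c e) (Lp (H j) c e))).fun_mul
      (h1 (Id1 e b) (ξ e b))
    refine h2.congr_deriv ?_
    rw [Lp_A0]
    ring
  have hsum : HasDerivAt (fun t : ℂ => ∑ c, ∑ e, (Id1 c a + t * ξ c a) *
      (Lp (A0 j) c e + t * Lp (H j) c e) * (Id1 e b + t * ξ e b))
      (∑ c, ∑ e, (ξ c a * A0 j c e * Id1 e b + Id1 c a * Lp (H j) c e * Id1 e b +
        Id1 c a * A0 j c e * ξ e b)) 0 := by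
    apply HasDerivAt.fun_sum
    intro c _
    apply HasDerivAt.fun_sum
    intro e _
    exact hterm c e
  have hval : (∑ c, ∑ e, (ξ c a * A0 j c e * Id1 e b + Id1 c a * Lp (H j) c e * Id1 e b +
        Id1 c a * A0 j c e * ξ e b)) = LL ξ H j a b := by
    simp only [Finset.sum_add_distrib]
    unfold LL
    congr 1
    · congr 1
      · refine Finset.sum_congr rfl (fun c _ => ?_)
        rw [Finset.sum_eq_single b]
        · simp [Id1]
        · intro e _ he
          simp [Id1, he]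
        · simp
      · rw [Finset.sum_eq_single a, Finset.sum_eq_single b]
        · simp [Id1]
        · intro e _ he
          simp [Id1, he]
        · simp
        · intro c _ hc
          refine Finset.sum_eq_zero (fun e _ => ?_)
          simp [Id1, hc]
        · simp
    · rw [Finset.sum_eq_single a]
      · refine Finset.sum_congr rfl (fun e _ => ?_)
        simp [Id1]
      · intro c _ hc
        refine Finset.sum_eq_zero (fun e _ => ?_)
        simp [Id1, hc]
      · simp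
  have hfun : (fun t : ℂ => FF ((Id1, A0) + t • (ξ, H)) j a b) =
      fun t : ℂ => ∑ c, ∑ e, (Id1 c a + t * ξ c a) *
      (Lp (A0 j) c e + t * Lp (H j) c e) * (Id1 e b + t * ξ e b) := by
    funext t
    simp only [FF]
    refine Finset.sum_congr rfl (fun c _ => Finset.sum_congr rfl (fun e _ => ?_))
    rw [← Lp_line]
    rfl
  rw [hfun, ← hval]
  exact hsum

theorem LL_surj (T : Fm → Vr → Vr → ℂ) : ∃ ξ H, LL ξ H = T := by
  let t : Fm → Fin 8 → ℂ := fun j c => T j x0 (vv c) + T j (vv c) x0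
  let ξ := xi t
  let R : Fm → Vr → Vr → ℂ := fun j a b =>
    T j a b - (∑ c, ξ c a * A0 j c b) - ∑ e, A0 j a e * ξ e b
  have hR : ∀ j c, R j x0 (vv c) + R j (vv c) x0 = 0 := by
    intro j c
    simp only [R]
    simp only [Fintype.sum_sum_type, Finset.univ_unique, Finset.sum_singleton]
    rcases j with ⟨⟩ | q | _ | b
    · simp [A0, ξ, xi, t]
      ring
    · simp [A0, ξ, xi, t]
    · simp [A0, ξ, xi, t]
      ring
    · simp [A0, ξ, xi, t]
  refine ⟨ξ, R, ?_⟩
  funext j a b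
  unfold LL
  rw [Lp_fix (R j) (hR j)]
  simp only [R]
  ring

theorem FF_nhds : Filter.map FF (𝓝 (Id1, A0)) = 𝓝 A0 := by
  have h1 : HasStrictFDerivAt FF (fderiv ℂ FF (Id1, A0)) (Id1, A0) :=
    FF_contDiff.contDiffAt.hasStrictFDerivAt (by norm_num)
  have h2 : (fderiv ℂ FF (Id1, A0)).range = ⊤ := by
    refine LinearMap.range_eq_top.2 ?_
    intro T
    obtain ⟨ξ, H, hT⟩ := LL_surj T
    refine ⟨(ξ, H), ?_⟩
    have h3 : HasDerivAt (fun t : ℂ => (Id1, A0) + t • (ξ, H)) (ξ, H) 0 := by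
      simpa using ((hasDerivAt_id (0 : ℂ)).smul_const (ξ, H)).const_add (Id1, A0)
    have h4 : HasDerivAt (fun t : ℂ => FF ((Id1, A0) + t • (ξ, H)))
        ((fderiv ℂ FF (Id1, A0)) (ξ, H)) 0 := by
      have h5 : HasFDerivAt FF (fderiv ℂ FF (Id1, A0)) ((Id1, A0) + (0 : ℂ) • (ξ, H)) := by
        simpa using h1.hasFDerivAt
      exact h5.comp_hasDerivAt (0 : ℂ) h3
    rw [← hT]
    exact h4.unique (FF_line ξ H)
  have h3 := h1.map_nhds_eq_of_surj h2
  rw [FF_base] at h3
  exact h3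

theorem near_bad (k : ℕ) :
    ∀ᶠ A in 𝓝 A0, ¬ Good 2 (k + 1) (fun j => quad (A j) : Fm → MvPolynomial Vr ℂ) := by
  have hdet : ∀ᶠ z in 𝓝 ((Id1, A0) : (Vr → Vr → ℂ) × (Fm → Vr → Vr → ℂ)),
      Matrix.det (Matrix.of z.1) ≠ 0 := by
    have hc : Continuous (fun z : (Vr → Vr → ℂ) × (Fm → Vr → Vr → ℂ) =>
        Matrix.det (Matrix.of z.1)) := by
      apply Continuous.matrix_det
      exact continuous_fst
    have h1 : Matrix.det (Matrix.of Id1) ≠ 0 := by
      have : Matrix.of Id1 = (1 : Matrix Vr Vr ℂ) := by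
        ext a b
        simp [Id1, Matrix.one_apply]
      rw [this]
      simp
    exact hc.continuousAt.eventually_ne h1
  rw [← FF_nhds, Filter.eventually_map]
  filter_upwards [hdet] with z hz hg
  have hg1 : (fun j => quad (FF z j) : Fm → MvPolynomial Vr ℂ) =
      fun j => lin z.1 (quad (Lp (z.2 j))) := by
    funext j
    rw [lin_quad]
    rfl
  rw [hg1] at hg
  have hu : IsUnit (Matrix.det (Matrix.of z.1)) := isUnit_iff_ne_zero.2 hz
  have hinv : ∀ p : MvPolynomial Vr ℂ, lin (fun a b => (Matrix.of z.1)⁻¹ a b) (lin z.1 p) = p := by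
    intro p
    rw [lin_lin]
    have h1 : (fun a b => ∑ c, z.1 a c * (Matrix.of z.1)⁻¹ c b) =
        fun a b : Vr => if a = b then (1 : ℂ) else 0 := by
      funext a b
      have h2 := congrFun (congrFun (Matrix.mul_nonsing_inv _ hu) a) b
      rw [Matrix.mul_apply, Matrix.one_apply] at h2
      exact h2
    rw [h1]
    exact lin_id p
  have h3 := good_map (lin (fun a b => (Matrix.of z.1)⁻¹ a b)) (lin z.1) hinv
    (fun n p hp => lin_homog _ n p hp) hg
  simp only [hinv] at h3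
  exact bad_quad (fun j => Lp (z.2 j)) (fun j c => Lp_zero _ c) k h3

end Pool.Agent.R363.PG
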