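import Mathlib
import Pool.Agent.R363.PG.Near

/-!
# The property is open along lines, hence all tuples of quadratic forms are bad
-/

open MvPolynomial Filter Topology

namespace Pool.Agent.R363.PG

set_option maxHeartbeats 400000

theorem map_gen {K L : Type*} [CommRing K] [CommRing L] {σ τ : Type*} (φ : K →+* L) (k : ℕ)
    (f : τ → MvPolynomial σ K) (q : (Fin k → τ) × σ) :
    MvPolynomial.map φ (gen k f q) = gen k (fun j => MvPolynomial.map φ (f j)) q := by
  simp [gen, map_mul, map_prod]

theorem map_quad {K L : Type*} [CommRing K] [CommRing L] {σ : Type*} [Fintype σ] (φ : K →+* L)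
    (A : σ → σ → K) : MvPolynomial.map φ (quad A) = quad (fun a b => φ (A a b)) := by
  simp [quad, map_sum, map_mul]

/-- The point of parameter `t` on the line from `A` to `B`. -/
def At {τ σ : Type*} (A B : τ → σ → σ → ℂ) (t : ℂ) : τ → σ → σ → ℂ :=
  fun j a b => A j a b + t * (B j a b - A j a b)

theorem homog_eq_sum {σ : Type*} [Fintype σ] {K : Type*} [CommRing K] {m : ℕ}
    (p : MvPolynomial σ K) (hp : p.IsHomogeneous m) (s : Finset (σ →₀ ℕ))
    (hs : ∀ e : σ →₀ ℕ, e.degree = m → e ∈ s) :
    p = ∑ e ∈ s, coeff e p • monomial e (1 : K) := by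
  classical
  ext e
  rw [coeff_sum]
  simp only [coeff_smul, coeff_monomial, smul_eq_mul]
  by_cases h : coeff e p = 0
  · rw [h]
    symm
    refine Finset.sum_eq_zero (fun e' _ => ?_)
    by_cases h' : e' = e
    · subst h'
      simp [h]
    · simp [h']
  · have he : e ∈ s := by
      apply hs
      by_contra h'
      exact h (hp.coeff_eq_zero h')
    rw [Finset.sum_eq_single e]
    · simp
    · intro e' _ h'
      simp [h']
    · intro h'
      exact absurd he h'

theorem good_line {σ τ : Type*} [Fintype σ] [Fintype τ] (k : ℕ) (A B : τ → σ → σ → ℂ)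
    (hB : Good 2 k (fun j => quad (B j))) :
    ∃ P : Polynomial ℂ, P ≠ 0 ∧ ∀ t, P.eval t ≠ 0 → Good 2 k (fun j => quad (At A B t j)) := by
  classical
  let m := 2 * k + 1
  have hfin : {e : σ →₀ ℕ | e.degree = m}.Finite := Finsupp.finite_of_degree_eq m
  let s : Finset (σ →₀ ℕ) := hfin.toFinset
  have hs : ∀ e : σ →₀ ℕ, e.degree = m → e ∈ s := fun e he => by
    rw [Set.Finite.mem_toFinset]
    exact he
  have hs' : ∀ e ∈ s, e.degree = m := fun e he => by
    rw [Set.Finite.mem_toFinset] at he
    exact he
  let F : τ → MvPolynomial σ (Polynomial ℂ) := fun j =>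
    quad (fun a b => Polynomial.C (A j a b) + Polynomial.X * Polynomial.C (B j a b - A j a b))
  let N : Matrix s ((Fin k → τ) × σ) (Polynomial ℂ) := fun e q => coeff e.1 (gen k F q)
  have hN : ∀ (t : ℂ) e q, Polynomial.eval t (N e q) =
      coeff e.1 (gen k (fun j => quad (At A B t j)) q) := by
    intro t e q
    have h1 : MvPolynomial.map (Polynomial.evalRingHom t) (gen k F q) =
        gen k (fun j => quad (At A B t j)) q := by
      rw [map_gen]
      congr 1
      funext j
      rw [map_quad]
      congr 1
      funext a b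
      simp [At]
    rw [← h1, coeff_map]
    rfl
  have hA1 : (fun j => quad (At A B 1 j) : τ → MvPolynomial σ ℂ) = fun j => quad (B j) := by
    funext j
    congr 1
    funext a b
    simp [At]
  have hBs := (good_iff (d := 2) (k := k) (fun j => quad (B j)) (fun j => quad_homog (B j))).1 hB
  have hR : ∀ e : s, ∃ r : (Fin k → τ) × σ → ℂ,
      ∑ q, r q • gen k (fun j => quad (B j)) q = monomial e.1 (1 : ℂ) := by
    intro e
    have h1 := hBs (monomial e.1 1) (isHomogeneous_monomial 1 (hs' e.1 e.2))
    rw [Submodule.mem_span_range_iff_exists_fun] at h1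
    exact h1
  choose r hr using hR
  let R : Matrix ((Fin k → τ) × σ) s (Polynomial ℂ) := fun q e => Polynomial.C (r e q)
  refine ⟨(N * R).det, ?_, ?_⟩
  · intro h0
    have h1 : Polynomial.eval 1 (N * R).det = 1 := by
      rw [← Polynomial.coe_evalRingHom, RingHom.map_det]
      have h2 : (Polynomial.evalRingHom (1 : ℂ)).mapMatrix (N * R) = 1 := by
        ext e e'
        rw [RingHom.mapMatrix_apply, Matrix.map_apply, Matrix.mul_apply, map_sum,
          Matrix.one_apply]
        have h3 := congrArg (coeff e.1) (hr e')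
        rw [coeff_sum, coeff_monomial] at h3
        have h4 : ∀ q, (Polynomial.evalRingHom (1 : ℂ)) (N e q * R q e') =
            coeff e.1 (r e' q • gen k (fun j => quad (B j)) q) := by
          intro q
          rw [map_mul, Polynomial.coe_evalRingHom, hN, hA1, coeff_smul, smul_eq_mul]
          simp only [R, Polynomial.eval_C]
          ring
        rw [Finset.sum_congr rfl (fun q _ => h4 q), h3]
        by_cases h5 : e = e'
        · rw [h5]
          simp
        · rw [if_neg h5, if_neg]
          intro h6
          exact h5 (Subtype.ext h6.symm)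
      rw [h2, Matrix.det_one]
    rw [h0] at h1
    simp at h1
  · intro t ht
    rw [← Polynomial.coe_evalRingHom, RingHom.map_det] at ht
    set M := (Polynomial.evalRingHom t).mapMatrix (N * R) with hM
    have hu : IsUnit M.det := isUnit_iff_ne_zero.2 ht
    have hMe : ∀ e e', M e e' = ∑ q, coeff e.1 (gen k (fun j => quad (At A B t j)) q) * r e' q := by
      intro e e'
      rw [hM, RingHom.mapMatrix_apply, Matrix.map_apply, Matrix.mul_apply, map_sum]
      refine Finset.sum_congr rfl (fun q _ => ?_)
      rw [map_mul, Polynomial.coe_evalRingHom, hN]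
      simp only [R, Polynomial.eval_C]
    rw [good_iff (d := 2) (k := k) _ (fun j => quad_homog _)]
    have hmono : ∀ e : s, monomial e.1 (1 : ℂ) ∈
        Submodule.span ℂ (Set.range (gen k (fun j => quad (At A B t j)))) := by
      intro e
      have h1 : monomial e.1 (1 : ℂ) =
          ∑ q, (∑ e', r e' q * M⁻¹ e' e) • gen k (fun j => quad (At A B t j)) q := by
        have hhom : (∑ q, (∑ e', r e' q * M⁻¹ e' e) •
            gen k (fun j => quad (At A B t j)) q).IsHomogeneous m := by
          refine IsHomogeneous.sum _ _ _ (fun q _ => ?_)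
          rw [smul_eq_C_mul]
          exact (gen_homog _ (fun j => quad_homog _) q).C_mul _
        rw [homog_eq_sum _ (isHomogeneous_monomial (1 : ℂ) (hs' e.1 e.2)) s hs,
          homog_eq_sum _ hhom s hs]
        refine Finset.sum_congr rfl (fun e1 he1 => ?_)
        congr 1
        rw [coeff_sum, coeff_monomial]
        have h2 := congrFun (congrFun (Matrix.mul_nonsing_inv M hu) ⟨e1, he1⟩) e
        rw [Matrix.mul_apply, Matrix.one_apply] at h2
        have h3 : ∑ q, coeff e1 ((∑ e', r e' q * M⁻¹ e' e) •
            gen k (fun j => quad (At A B t j)) q) = ∑ e', M ⟨e1, he1⟩ e' * M⁻¹ e' e := by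
          simp only [coeff_smul, smul_eq_mul, Finset.sum_mul, hMe]
          rw [Finset.sum_comm]
          refine Finset.sum_congr rfl (fun e' _ => Finset.sum_congr rfl (fun q _ => ?_))
          ring
        rw [h3, h2]
        by_cases h5 : e1 = e.1
        · rw [if_pos h5.symm, if_pos (Subtype.ext h5)]
        · rw [if_neg (fun h => h5 h.symm), if_neg (fun h => h5 (congrArg Subtype.val h))]
      rw [h1]
      exact Submodule.sum_mem _ (fun q _ => Submodule.smul_mem _ _ (Submodule.subset_span ⟨q, rfl⟩))
    intro p hp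
    rw [homog_eq_sum p hp s hs]
    exact Submodule.sum_mem _ (fun e he => Submodule.smul_mem _ _ (hmono ⟨e, he⟩))

theorem all_bad (B : Fm → Vr → Vr → ℂ) (k : ℕ) :
    ¬ Good 2 (k + 1) (fun j => quad (B j) : Fm → MvPolynomial Vr ℂ) := by
  intro hB
  obtain ⟨P, hP, hgood⟩ := good_line (k + 1) A0 B hB
  have hcont : Continuous (fun t : ℂ => At A0 B t) := by
    unfold At
    fun_prop
  have h0 : At A0 B 0 = A0 := by
    funext j a b
    simp [At]
  have h1 : ∀ᶠ t in 𝓝 (0 : ℂ), ¬ Good 2 (k + 1) (fun j => quad (At A0 B t j) : Fm → MvPolynomial Vr ℂ) := by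
    have h2 : Tendsto (fun t : ℂ => At A0 B t) (𝓝 0) (𝓝 A0) := by
      have := hcont.tendsto 0
      rw [h0] at this
      exact this
    exact h2.eventually (near_bad k)
  have h3 : ∀ᶠ t in 𝓝 (0 : ℂ), P.eval t = 0 := by
    filter_upwards [h1] with t ht
    by_contra h
    exact ht (hgood t h)
  have h4 : {t : ℂ | P.eval t = 0}.Infinite := by
    apply infinite_of_mem_nhds (0 : ℂ)
    exact h3
  apply h4
  exact (Polynomial.rootSet_finite P ℂ).subset (fun t ht => by
    rw [Polynomial.mem_rootSet]
    refine ⟨hP, ?_⟩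
    simpa using ht)

end Pool.Agent.R363.PG
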