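import Mathlib
import Pool.Agent.R363.PG.Line

/-!
# All 74-tuples of quadratic forms in 73 variables are bad
-/

open MvPolynomial
open scoped Pointwise

namespace Pool.Agent.R363.PG

set_option maxHeartbeats 400000

theorem quad_smul {σ : Type*} [Fintype σ] {R : Type*} [CommRing R] (r : R) (A : σ → σ → R) :
    quad (fun a b => r * A a b) = r • quad A := by
  unfold quad
  rw [Finset.smul_sum]
  refine Finset.sum_congr rfl (fun a _ => ?_)
  rw [Finset.smul_sum]
  refine Finset.sum_congr rfl (fun b _ => ?_)
  rw [C_mul, smul_eq_C_mul, mul_assoc]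

theorem exists_quad {σ : Type*} [Fintype σ] {R : Type*} [CommRing R] (p : MvPolynomial σ R)
    (hp : p.IsHomogeneous 2) : ∃ A : σ → σ → R, p = quad A := by
  classical
  have h1 : p ∈ Submodule.span R (Set.range (X : σ → MvPolynomial σ R) *
      Set.range (X : σ → MvPolynomial σ R)) := by
    rw [← Submodule.span_mul_span, ← homogeneousSubmodule_one_eq_span_X, ← pow_two,
      homogeneousSubmodule_one_pow]
    exact hp
  clear hp
  induction h1 using Submodule.span_induction with
  | mem x h =>
    obtain ⟨_, ⟨a, rfl⟩, _, ⟨b, rfl⟩, rfl⟩ := h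
    refine ⟨fun c e => if c = a ∧ e = b then 1 else 0, ?_⟩
    unfold quad
    rw [Finset.sum_eq_single a, Finset.sum_eq_single b]
    · simp
    · intro e _ he
      simp [he]
    · simp
    · intro c _ hc
      refine Finset.sum_eq_zero (fun e _ => ?_)
      simp [hc]
    · simp
  | zero =>
    refine ⟨fun _ _ => 0, ?_⟩
    simp [quad]
  | add x y _ _ hx hy =>
    obtain ⟨A, rfl⟩ := hx
    obtain ⟨B, rfl⟩ := hy
    exact ⟨fun a b => A a b + B a b, (quad_add A B).symm⟩
  | smul r x _ hx =>
    obtain ⟨A, rfl⟩ := hx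
    exact ⟨fun a b => r * A a b, (quad_smul r A).symm⟩

theorem all_bad_vr (h : Fm → MvPolynomial Vr ℂ) (hh : ∀ j, (h j).IsHomogeneous 2) (k : ℕ) :
    ¬ Good 2 (k + 1) h := by
  choose A hA using fun j => exists_quad (h j) (hh j)
  have : h = fun j => quad (A j) := funext hA
  rw [this]
  exact all_bad A k

/-- For 74 quadratic forms in 73 variables, some form of degree `2 * k + 1` is missing. -/
theorem all_bad_fin (f : Fin 74 → MvPolynomial (Fin 73) ℂ) (hf : ∀ j, (f j).IsHomogeneous 2)
    (k : ℕ) (hk : 1 ≤ k) : ¬ Good 2 k f := by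
  obtain ⟨k, rfl⟩ : ∃ k', k = k' + 1 := ⟨k - 1, by omega⟩
  have c1 : Fintype.card (Fin 73) = Fintype.card Vr := by simp
  have c2 : Fintype.card Fm = Fintype.card (Fin 74) := by simp
  let e : Fin 73 ≃ Vr := Fintype.equivOfCardEq c1
  let e' : Fm ≃ Fin 74 := Fintype.equivOfCardEq c2
  intro hg
  have h1 : Good 2 (k + 1) (fun j => rename e (f j)) := by
    refine good_map (rename e) (rename e.symm) ?_ ?_ hg
    · intro p
      rw [rename_rename]
      simp
    · intro n p hp
      exact hp.rename_isHomogeneous
  have h2 : Good 2 (k + 1) (fun j : Fm => rename e (f (e' j))) := by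
    intro p hp
    have h3 := h1 p hp
    have h4 : Set.range (fun j : Fm => rename e (f (e' j))) = Set.range (fun j => rename e (f j)) :=
      e'.surjective.range_comp (fun j => rename e (f j))
    rw [h4]
    exact h3
  exact all_bad_vr _ (fun j => (hf _).rename_isHomogeneous) k h2

end Pool.Agent.R363.PG
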